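import Mathlib

/-!
# MP_bb77e0_gt: the space of mm-spaces with the concentration topology is not sigma-compact
-/

open MeasureTheory Set Filter
open scoped ENNReal Topology NNReal

namespace Pool.Agent.Results.MP_bb77e0_gt.NotSigmaCompact

/-- An mm-space: a complete separable metric space with a Borel probability measure. -/
structure MMSpace where
  carrier : Type
  [metric : MetricSpace carrier]
  [complete : CompleteSpace carrier]
  [separable : TopologicalSpace.SeparableSpace carrier]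
  [meas : MeasurableSpace carrier]
  [borel : BorelSpace carrier]
  μ : Measure carrier
  [prob : IsProbabilityMeasure μ]

attribute [instance] MMSpace.metric MMSpace.complete MMSpace.separable MMSpace.meas
  MMSpace.borel MMSpace.prob

/-- `X` and `Y` are mm-isomorphic: some isometry between the supports pushes the measure of `X`
to the measure of `Y`. -/
def MMIso (X Y : MMSpace) : Prop :=
  ∃ f : X.μ.support → Y.μ.support, Isometry f ∧ ∀ B : Set Y.carrier, MeasurableSet B →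
    Y.μ B = X.μ {x | ∃ h : x ∈ X.μ.support, (f ⟨x, h⟩ : Y.carrier) ∈ B}

/-- The set of mm-isomorphism classes. -/
def Classes : Type 1 := Quot MMIso

/-- The interval `[0,1)`. -/
abbrev I : Type := Set.Ico (0 : ℝ) 1

/-- Lebesgue measure on `[0,1)`. -/
noncomputable def leb : Measure I := Measure.comap Subtype.val (volume : Measure ℝ)

/-- A parameter of `X`: a Borel map from `[0,1)` pushing Lebesgue measure to the measure of `X`. -/
def IsParam (X : MMSpace) (φ : I → X.carrier) : Prop :=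
  Measurable φ ∧ Measure.map φ leb = X.μ

/-- The Ky Fan distance. -/
noncomputable def dKF (f g : I → ℝ) : ℝ≥0∞ :=
  sInf {ε : ℝ≥0∞ | leb {t : I | ε < ENNReal.ofReal |f t - g t|} ≤ ε}

/-- The compositions of the real 1-Lipschitz functions on `X` with `φ`. -/
def pull (X : MMSpace) (φ : I → X.carrier) : Set (I → ℝ) :=
  {h | ∃ f : X.carrier → ℝ, LipschitzWith 1 f ∧ h = f ∘ φ}

/-- The Hausdorff distance for the Ky Fan distance. -/
noncomputable def dH (A B : Set (I → ℝ)) : ℝ≥0∞ :=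
  sInf {ε : ℝ≥0∞ | (∀ f ∈ A, ∃ g ∈ B, dKF f g ≤ ε) ∧ (∀ g ∈ B, ∃ f ∈ A, dKF f g ≤ ε)}

/-- The observable distance of two mm-spaces. -/
noncomputable def dconc (X Y : MMSpace) : ℝ≥0∞ :=
  ⨅ (φ : I → X.carrier) (_ : IsParam X φ) (ψ : I → Y.carrier) (_ : IsParam Y ψ),
    dH (pull X φ) (pull Y ψ)

/-- The observable distance of two isomorphism classes. -/
noncomputable def dconcQ (a b : Classes) : ℝ≥0∞ :=
  ⨅ (X : MMSpace) (_ : Quot.mk MMIso X = a) (Y : MMSpace) (_ : Quot.mk MMIso Y = b), dconc X Y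

/-- The concentration topology: a set is open iff with each point it contains a ball for the
observable distance. -/
instance : TopologicalSpace Classes where
  IsOpen U := ∀ a ∈ U, ∃ ε : ℝ≥0∞, 0 < ε ∧ ∀ b, dconcQ a b < ε → b ∈ U
  isOpen_univ := fun _ _ => ⟨1, by simp, fun _ _ => trivial⟩
  isOpen_inter := by
    rintro U V hU hV a ⟨haU, haV⟩
    obtain ⟨ε, hε, h1⟩ := hU a haU
    obtain ⟨δ, hδ, h2⟩ := hV a haV
    exact ⟨min ε δ, lt_min hε hδ, fun b hb =>
      ⟨h1 b (lt_of_lt_of_le hb (min_le_left _ _)), h2 b (lt_of_lt_of_le hb (min_le_right _ _))⟩⟩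
  isOpen_sUnion := by
    rintro S hS a ⟨U, hU, ha⟩
    obtain ⟨ε, hε, h⟩ := hS U hU a ha
    exact ⟨ε, hε, fun b hb => ⟨U, hU, h b hb⟩⟩

/-! ### Observable radius -/

/-- Every 1-Lipschitz function is within `R` of a constant up to measure `κ`. -/
def Obs (X : MMSpace) (κ : ℝ≥0∞) (R : ℝ) : Prop :=
  ∀ f : X.carrier → ℝ, LipschitzWith 1 f → ∃ c : ℝ, X.μ {x | R < |f x - c|} ≤ κ

lemma Obs.mono {X : MMSpace} {κ κ' : ℝ≥0∞} {R R' : ℝ} (h : Obs X κ R) (hκ : κ ≤ κ')
    (hR : R ≤ R') : Obs X κ' R' := by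
  intro f hf
  obtain ⟨c, hc⟩ := h f hf
  refine ⟨c, le_trans (measure_mono ?_) (hc.trans hκ)⟩
  intro x hx
  exact lt_of_le_of_lt hR hx

lemma dKF_lt {f g : I → ℝ} {ε : ℝ} (h : dKF f g < ENNReal.ofReal ε) :
    leb {t : I | ε < |f t - g t|} ≤ ENNReal.ofReal ε := by
  obtain ⟨δ, hδ, hlt⟩ := sInf_lt_iff.1 h
  have hδ' : leb {t : I | δ < ENNReal.ofReal |f t - g t|} ≤ δ := hδ
  refine le_trans (measure_mono ?_) (hδ'.trans hlt.le)
  intro t ht
  have ht' : ε < |f t - g t| := ht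
  exact lt_of_lt_of_le hlt (ENNReal.ofReal_le_ofReal ht'.le)

lemma Obs.perturb {X Y : MMSpace} {κ : ℝ≥0∞} {R ε : ℝ} (hε : 0 < ε) (h : Obs X κ R)
    (hd : dconc X Y < ENNReal.ofReal ε) : Obs Y (κ + ENNReal.ofReal ε) (R + ε) := by
  intro g hg
  simp only [dconc, iInf_lt_iff] at hd
  obtain ⟨φ, hφ, ψ, hψ, hH⟩ := hd
  obtain ⟨δ, hδ, hlt⟩ := sInf_lt_iff.1 hH
  obtain ⟨p, ⟨f, hf, rfl⟩, hp⟩ := hδ.2 (g ∘ ψ) ⟨g, hg, rfl⟩
  have hK := dKF_lt (lt_of_le_of_lt hp hlt)
  obtain ⟨c, hc⟩ := h f hf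
  refine ⟨c, ?_⟩
  have hmY : MeasurableSet {y | R + ε < |g y - c|} :=
    measurableSet_lt measurable_const ((hg.continuous.sub continuous_const).abs.measurable)
  have hmX : MeasurableSet {x | R < |f x - c|} :=
    measurableSet_lt measurable_const ((hf.continuous.sub continuous_const).abs.measurable)
  rw [← hψ.2, Measure.map_apply hψ.1 hmY]
  rw [← hφ.2, Measure.map_apply hφ.1 hmX] at hc
  refine le_trans (measure_mono ?_) ((measure_union_le _ _).trans (add_le_add hc hK))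
  intro t ht
  have ht' : R + ε < |g (ψ t) - c| := ht
  by_contra hcon
  rw [mem_union, not_or] at hcon
  have h1 : ¬ (R < |f (φ t) - c|) := hcon.1
  have h2 : ¬ (ε < |(f ∘ φ) t - (g ∘ ψ) t|) := hcon.2
  push Not at h1 h2
  simp only [Function.comp_apply] at h2
  have h3 : |g (ψ t) - c| ≤ |f (φ t) - c| + |f (φ t) - g (ψ t)| := by
    have : g (ψ t) - c = (f (φ t) - c) - (f (φ t) - g (ψ t)) := by ring
    rw [this]
    exact abs_sub _ _
  linarith

lemma obs_exists (X : MMSpace) {κ : ℝ≥0∞} (hκ : 0 < κ) : ∃ n : ℕ, Obs X κ n := by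
  have hne : Nonempty X.carrier := nonempty_of_isProbabilityMeasure X.μ
  obtain ⟨x0⟩ := hne
  have hm : ∀ n : ℕ, MeasurableSet {x | (n : ℝ) < dist x x0} := fun n =>
    measurableSet_lt measurable_const (continuous_id.dist continuous_const).measurable
  have hanti : Antitone (fun n : ℕ => {x | (n : ℝ) < dist x x0}) := by
    intro m n hmn x hx
    have : (m : ℝ) ≤ n := by exact_mod_cast hmn
    exact lt_of_le_of_lt this hx
  have hlim := tendsto_measure_iInter_atTop (μ := X.μ) (fun n => (hm n).nullMeasurableSet) hanti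
    ⟨0, measure_ne_top _ _⟩
  have hemp : ⋂ n : ℕ, {x | (n : ℝ) < dist x x0} = ∅ := by
    ext x
    simp only [mem_iInter, mem_ofPred_eq, mem_empty_iff_false, iff_false, not_forall, not_lt]
    exact exists_nat_ge _
  rw [hemp, measure_empty] at hlim
  obtain ⟨n, hn⟩ := (hlim.eventually (gt_mem_nhds hκ)).exists
  refine ⟨n, fun f hf => ⟨f x0, le_trans (measure_mono ?_) hn.le⟩⟩
  intro x hx
  have h1 : (n : ℝ) < |f x - f x0| := hx
  have h2 := hf.dist_le_mul x x0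
  rw [Real.dist_eq] at h2
  simp only [NNReal.coe_one, one_mul] at h2
  exact lt_of_lt_of_le h1 h2

/-! ### Invariance under isomorphism -/

lemma Obs.of_iso {X Y : MMSpace} (hXY : MMIso X Y) {κ : ℝ≥0∞} {R : ℝ} (h : Obs X κ R) :
    Obs Y κ R := by
  classical
  obtain ⟨f, hf, hmeas⟩ := hXY
  intro g hg
  let k : X.carrier → ℝ := fun x => if h : x ∈ X.μ.support then g (f ⟨x, h⟩) else 0
  have hk : LipschitzOnWith 1 k X.μ.support := by
    refine LipschitzOnWith.of_dist_le_mul ?_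
    intro x hx y hy
    simp only [k, dif_pos hx, dif_pos hy]
    have h1 := hg.dist_le_mul (f ⟨x, hx⟩) (f ⟨y, hy⟩)
    have h2 : dist (f ⟨x, hx⟩ : Y.carrier) (f ⟨y, hy⟩) = dist x y := hf.dist_eq ⟨x, hx⟩ ⟨y, hy⟩
    rw [h2] at h1
    exact h1
  obtain ⟨k', hk', heq⟩ := hk.extend_real
  obtain ⟨c, hc⟩ := h k' hk'
  refine ⟨c, ?_⟩
  have hmY : MeasurableSet {y | R < |g y - c|} :=
    measurableSet_lt measurable_const ((hg.continuous.sub continuous_const).abs.measurable)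
  rw [hmeas _ hmY]
  refine le_trans (measure_mono ?_) hc
  rintro x ⟨hx, hx2⟩
  have hx3 : R < |g (f ⟨x, hx⟩) - c| := hx2
  have hx4 : k x = g (f ⟨x, hx⟩) := by simp only [k, dif_pos hx]
  show R < |k' x - c|
  rw [← heq hx, hx4]
  exact hx3

lemma Obs.of_iso' {X Y : MMSpace} (hXY : MMIso X Y) {κ : ℝ≥0∞} {R : ℝ} (h : Obs Y κ R) :
    Obs X κ R := by
  classical
  obtain ⟨f, hf, hmeas⟩ := hXY
  intro g hg
  let F : X.μ.support → Y.carrier := fun x => (f x : Y.carrier)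
  have hF : ∀ x y, dist (F x) (F y) = dist (x : X.carrier) y := fun x y => hf.dist_eq x y
  have hFinj : Function.Injective F := by
    intro x y hxy
    have := hF x y
    rw [hxy, dist_self] at this
    exact Subtype.ext (dist_eq_zero.1 this.symm)
  let k : Y.carrier → ℝ := fun y => if h : ∃ x, F x = y then g (h.choose : X.carrier) else 0
  have hkF : ∀ x, k (F x) = g x := by
    intro x
    have hex : ∃ x', F x' = F x := ⟨x, rfl⟩
    have h1 : hex.choose = x := hFinj hex.choose_spec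
    simp only [k, dif_pos hex]
    rw [h1]
  have hk : LipschitzOnWith 1 k (Set.range F) := by
    refine LipschitzOnWith.of_dist_le_mul ?_
    rintro _ ⟨x, rfl⟩ _ ⟨y, rfl⟩
    rw [hkF, hkF, hF]
    exact hg.dist_le_mul _ _
  obtain ⟨k', hk', heq⟩ := hk.extend_real
  obtain ⟨c, hc⟩ := h k' hk'
  refine ⟨c, ?_⟩
  have hmY : MeasurableSet {y | R < |k' y - c|} :=
    measurableSet_lt measurable_const ((hk'.continuous.sub continuous_const).abs.measurable)
  rw [hmeas _ hmY] at hc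
  have hnull : X.μ X.μ.supportᶜ = 0 := Measure.measure_compl_support
  refine le_trans (measure_mono ?_) ((measure_union_le _ _).trans (add_le_add hc hnull.le)) |>.trans
    (by simp)
  intro x hx
  by_cases hxs : x ∈ X.μ.support
  · left
    refine ⟨hxs, ?_⟩
    show R < |k' (F ⟨x, hxs⟩) - c|
    rw [← heq ⟨_, rfl⟩, hkF]
    exact hx
  · right
    exact hxs

lemma obs_iff {X Y : MMSpace} (h : Quot.mk MMIso X = Quot.mk MMIso Y) (κ : ℝ≥0∞) (R : ℝ) :
    Obs X κ R ↔ Obs Y κ R := by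
  have h' := Quot.eqvGen_exact h
  induction h' with
  | rel x y hxy => exact ⟨Obs.of_iso hxy, Obs.of_iso' hxy⟩
  | refl x => exact Iff.rfl
  | symm x y _ ih => exact (ih (Quot.eqvGen_sound ‹_›)).symm
  | trans x y z _ _ ih1 ih2 =>
    exact (ih1 (Quot.eqvGen_sound ‹_›)).trans (ih2 (Quot.eqvGen_sound ‹_›))

/-- The observable radius condition for classes. -/
def ObsQ (a : Classes) (κ : ℝ≥0∞) (R : ℝ) : Prop := ∀ X, Quot.mk MMIso X = a → Obs X κ R

lemma ObsQ.perturb {a b : Classes} {κ : ℝ≥0∞} {R ε : ℝ} (hε : 0 < ε) (h : ObsQ a κ R)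
    (hd : dconcQ a b < ENNReal.ofReal ε) : ObsQ b (κ + ENNReal.ofReal ε) (R + ε) := by
  simp only [dconcQ, iInf_lt_iff] at hd
  obtain ⟨X, hX, Y, hY, hXY⟩ := hd
  have h1 := (h X hX).perturb hε hXY
  intro Z hZ
  exact (obs_iff (hZ.trans hY.symm) _ _).2 h1

/-- The open sets used to cover compact sets. -/
def V (κ : ℝ≥0∞) (m : ℕ) : Set Classes := {a | ∃ κ' < κ, ∃ R' : ℝ, R' < m ∧ ObsQ a κ' R'}

lemma isOpen_V (κ : ℝ≥0∞) (m : ℕ) : IsOpen (V κ m) := by
  show ∀ a ∈ V κ m, ∃ ε : ℝ≥0∞, 0 < ε ∧ ∀ b, dconcQ a b < ε → b ∈ V κ m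
  rintro a ⟨κ', hκ', R', hR', h⟩
  obtain ⟨r, hr, hlt⟩ := ENNReal.lt_iff_exists_add_pos_lt.1 hκ'
  have hmin : 0 < min (r : ℝ) (((m : ℝ) - R') / 2) := lt_min (by exact_mod_cast hr) (by linarith)
  refine ⟨ENNReal.ofReal (min (r : ℝ) (((m : ℝ) - R') / 2)), ENNReal.ofReal_pos.2 hmin, ?_⟩
  intro b hb
  refine ⟨_, ?_, _, ?_, h.perturb hmin hb⟩
  · refine lt_of_le_of_lt (add_le_add le_rfl ?_) hlt
    refine (ENNReal.ofReal_le_ofReal (min_le_left _ _)).trans ?_
    rw [ENNReal.ofReal_coe_nnreal]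
  · have := min_le_right (r : ℝ) (((m : ℝ) - R') / 2)
    linarith

lemma V_mono (κ : ℝ≥0∞) : Monotone (V κ) := by
  rintro m n hmn a ⟨κ', hκ', R', hR', h⟩
  exact ⟨κ', hκ', R', lt_of_lt_of_le hR' (by exact_mod_cast hmn), h⟩

lemma V_cover {κ : ℝ≥0∞} (hκ : 0 < κ) (a : Classes) : ∃ m, a ∈ V κ m := by
  induction a using Quot.ind with
  | mk X =>
    obtain ⟨κ', h0, hκ'⟩ := exists_between hκ
    obtain ⟨n, hn⟩ := obs_exists X h0
    exact ⟨n + 1, κ', hκ', n, by push_cast; linarith, fun Z hZ => (obs_iff hZ _ _).2 hn⟩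

/-- Compact sets have bounded observable radii. -/
lemma compact_bounded {K : Set Classes} (hK : IsCompact K) {κ : ℝ≥0∞} (hκ : 0 < κ) :
    ∃ m : ℕ, ∀ X : MMSpace, Quot.mk MMIso X ∈ K → Obs X κ m := by
  obtain ⟨m, hm⟩ := hK.elim_directed_cover (V κ) (isOpen_V κ)
    (fun a _ => mem_iUnion.2 (V_cover hκ a)) (V_mono κ).directed_le
  refine ⟨m, fun X hX => ?_⟩
  obtain ⟨κ', hκ', R', hR', h⟩ := hm hX
  exact (h X rfl).mono hκ'.le hR'.le

/-! ### The heavy tailed measure -/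

/-- The atoms. -/
noncomputable def pt (R : ℕ → ℕ) : ℕ → ℝ
  | 0 => 0
  | n + 1 => 2 * R n + 1

/-- The heavy tailed measure. -/
noncomputable def heavy (R : ℕ → ℕ) : Measure ℝ :=
  Measure.sum (fun n => ((2 : ℝ≥0∞)⁻¹ ^ (n + 1)) • Measure.dirac (pt R n))

instance (R : ℕ → ℕ) : IsProbabilityMeasure (heavy R) := by
  constructor
  rw [heavy, Measure.sum_apply _ MeasurableSet.univ]
  simp only [Measure.smul_apply, measure_univ, smul_eq_mul, mul_one]
  rw [ENNReal.tsum_geometric_add_one, ENNReal.one_sub_inv_two, inv_inv]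
  exact ENNReal.inv_mul_cancel (by norm_num) (by norm_num)

lemma heavy_atom (R : ℕ → ℕ) (n : ℕ) {A : Set ℝ} (hA : MeasurableSet A) (h : pt R n ∈ A) :
    (2 : ℝ≥0∞)⁻¹ ^ (n + 1) ≤ heavy R A := by
  rw [heavy, Measure.sum_apply _ hA]
  refine le_trans ?_ (ENNReal.le_tsum n)
  simp [Measure.dirac_apply' _ hA, h]

/-- The mm-space carried by the line with the heavy tailed measure. -/
noncomputable def heavySpace (R : ℕ → ℕ) : MMSpace where
  carrier := ℝ
  μ := heavy R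

/-- Main theorem: the space of mm-isomorphism classes with the concentration topology is not a
countable union of compact subsets. -/
theorem result : ¬ ∃ K : ℕ → Set Classes, (∀ n, IsCompact (K n)) ∧ ⋃ n, K n = Set.univ := by
  rintro ⟨K, hK, hcov⟩
  have hκ : ∀ n : ℕ, (0 : ℝ≥0∞) < (2 : ℝ≥0∞)⁻¹ ^ (n + 3) := fun n =>
    ENNReal.pow_pos (by norm_num) _
  choose R hR using fun n => compact_bounded (hK n) (hκ n)
  have hmem : Quot.mk MMIso (heavySpace R) ∈ ⋃ n, K n := by rw [hcov]; trivial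
  obtain ⟨n, hn⟩ := mem_iUnion.1 hmem
  obtain ⟨c, hc⟩ := hR n _ hn (fun x : ℝ => x) LipschitzWith.id
  have hm : MeasurableSet {x : ℝ | (R n : ℝ) < |x - c|} :=
    measurableSet_lt measurable_const ((continuous_id.sub continuous_const).abs.measurable)
  have hc' : heavy R {x : ℝ | (R n : ℝ) < |x - c|} ≤ (2 : ℝ≥0∞)⁻¹ ^ (n + 3) := hc
  have hlt : (2 : ℝ≥0∞)⁻¹ ^ (n + 3) < (2 : ℝ≥0∞)⁻¹ ^ (n + 2) := by
    rw [pow_succ (n := n + 2)]
    have h0 : (2 : ℝ≥0∞)⁻¹ ^ (n + 2) ≠ 0 := (ENNReal.pow_pos (by norm_num) _).ne'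
    have ht : (2 : ℝ≥0∞)⁻¹ ^ (n + 2) ≠ ⊤ := ENNReal.pow_ne_top (by norm_num)
    calc (2 : ℝ≥0∞)⁻¹ ^ (n + 2) * 2⁻¹ < (2 : ℝ≥0∞)⁻¹ ^ (n + 2) * 1 :=
          ENNReal.mul_lt_mul_right h0 ht (by norm_num)
      _ = _ := mul_one _
  by_cases h0 : pt R 0 ∈ {x : ℝ | (R n : ℝ) < |x - c|}
  · have h1 := heavy_atom R 0 hm h0
    have h2 : (2 : ℝ≥0∞)⁻¹ ^ (n + 2) ≤ (2 : ℝ≥0∞)⁻¹ ^ (0 + 1) :=
      pow_le_pow_right_of_le_one' (by norm_num) (by omega)
    exact absurd ((h2.trans h1).trans hc') (not_le.2 hlt)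
  · have h1 : pt R (n + 1) ∈ {x : ℝ | (R n : ℝ) < |x - c|} := by
      by_contra h1
      simp only [mem_ofPred_eq, not_lt, pt] at h0 h1
      rw [abs_le] at h0 h1
      linarith [h0.1, h0.2, h1.1, h1.2]
    have h2 := heavy_atom R (n + 1) hm h1
    exact absurd (h2.trans hc') (not_le.2 hlt)

end Pool.Agent.Results.MP_bb77e0_gt.NotSigmaCompact
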